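import Pool.Agent.H72.MQ.Geom
import Pool.Agent.H7.MQN.Neg

open CategoryTheory Limits AlgebraicGeometry Pool.Agent.H72.MQ

namespace Pool.Agent.Results.MP_657af9_ag.ProjPush

theorem result (p ℓ : ℕ) [Fact p.Prime] [Fact ℓ.Prime] (hℓ : ℓ ≠ p) :
    Nonempty (Kum p ℓ) ∧ (∃ H, IsSec (Eη p ℓ) H) ∧ ∀ κ : Kum p ℓ,
      ∃ (X Y : Scheme.{0}) (sX : X ⟶ YY p) (sY : Y ⟶ YY p) (f : X ⟶ Y) (w : ℤ)
        (F : DerivedCategory.Plus (Sh (Eη p ℓ) X)),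
        FinType sX ∧ FinType sY ∧ f ≫ sY = sX ∧ IsProj p sY f ∧
        MPure (Eη p ℓ) κ.tq w (plusO _ F) ∧ ¬ MPure (Eη p ℓ) κ.tq w (RpushO _ f F) := by
  refine ⟨kum_nonempty p ℓ, exists_isSec p ℓ, fun κ => ?_⟩
  obtain ⟨i, hi, hg⟩ := exists_geo p
  refine ⟨PS p 1, YY p, PS.toSpec p 1, 𝟙 _, PS.toSpec p 1, 1, FF κ i, ?_, ?_, Category.comp_id _,
    isProj_toSpec p 1, pos κ hℓ hg, neg hℓ κ i (PS.toSpec p 1) hi⟩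
  · exact ⟨Pool.Agent.H72.MP.PS_locallyOfFiniteType p, Pool.Agent.H72.MP.PS_quasiCompact p⟩
  · exact ⟨inferInstance, inferInstance⟩

end Pool.Agent.Results.MP_657af9_ag.ProjPush
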